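import Pool.Agent.H33.PTH.Sts
import Pool.Agent.H36.M5.Box
import Pool.Agent.H36.PTH.D135

/-!
# The path of windows: (D4)

The height of the own sheet at the window `w'` from the height at the window `w`. The difference of
the own sheet at the two centres is, at the exact time, a function of the coefficients of the label
which are not pure.
-/

set_option autoImplicit false

namespace Pool.PTH.D4L

open Finset Real MvPolynomial
open Pool.Agent.H49.Ent Pool.Agent.H32.Dense Pool.STK Pool.KA Pool.KSAT Pool.K2S Pool.PB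
open Pool.SLO Pool.SLP Pool.KAF Pool.M5.Box

variable {m J : ℕ}

theorem totalDegree_slc_le (i₁ : Fin m) (τ : ℝ) (P : MvPolynomial (Fin m) ℝ) :
    (slc i₁ τ P).totalDegree ≤ P.totalDegree := by
  refine totalDegree_bind₁_le _ (fun j => ?_) P
  split_ifs
  · rw [totalDegree_C]
    exact Nat.zero_le _
  · rw [totalDegree_X]

/-- A bound on the slice of the cube extends to a larger slice. -/
theorem slice_ext (m K : ℕ) : ∃ C : ℝ, 0 ≤ C ∧ ∀ (i₁ : Fin m) (Q : MvPolynomial (Fin m) ℝ)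
    (τ M : ℝ), Q.totalDegree ≤ K → 0 ≤ τ → τ ≤ 1 →
    (∀ b : Fin m → ℝ, (∀ j, 0 ≤ b j ∧ b j ≤ 1) → b i₁ = τ → |eval b Q| ≤ M) →
    ∀ b : Fin m → ℝ, (∀ j, |b j| ≤ 4) → b i₁ = τ → |eval b Q| ≤ C * M := by
  obtain ⟨B, hB0, hB⟩ := Pool.SLO.coef_cube m K
  refine ⟨(Pool.Agent.H36.KBX.bx m K).card * (B * 4 ^ (m * K)), by positivity, ?_⟩
  intro i₁ Q τ M hQ h0 h1 hM b hb hbt
  have hd : (slc i₁ τ Q).totalDegree ≤ K := (totalDegree_slc_le i₁ τ Q).trans hQ
  have h2 : ∀ s, |coeff s (slc i₁ τ Q)| ≤ B * M := by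
    refine hB _ M hd fun y hy => ?_
    rw [eval_slc]
    refine hM _ (fun j => ?_) (if_pos rfl)
    by_cases hj : j = i₁
    · rw [if_pos hj]
      exact ⟨h0, h1⟩
    · rw [if_neg hj]
      exact hy j
  have h3 := Pool.Agent.H36.KBX.eval_bound (D := K) (slc i₁ τ Q) hd (B * M) 4 (by norm_num) h2 b hb
  rw [eval_slc] at h3
  have h4 : (fun j => if j = i₁ then τ else b j) = b := by
    funext j
    by_cases hj : j = i₁
    · rw [if_pos hj, hj, hbt]
    · rw [if_neg hj]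
  rw [h4] at h3
  refine h3.trans (le_of_eq ?_)
  ring

theorem coeff_rdp (K P : ℕ) (G : MvPolynomial (Fin m) ℝ) (s : Fin m →₀ ℕ) :
    coeff s (rdp K P G) = if s ∈ mons m K then (hz P G s : ℝ) / 2 ^ P else 0 := by
  classical
  unfold rdp rdz
  rw [coeff_sum]
  simp only [coeff_monomial]
  rw [Finset.sum_ite_eq']

/-- The centre of the small box in the large box. -/
noncomputable def cen (F : Fam m J) (i₁ : Fin m) (a w w' q : ℕ) (ω : F.Ω) : Fin m → ℝ := fun j =>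
  (if j = i₁ then (1 / 2 ^ (w - w') : ℝ) * F.tw w ω else 0) +
    off i₁ a w w' q (F.T1 w ω) (clp F i₁ a w ω) (clp F i₁ a w' ω) (cld F i₁ q ω) j

theorem cen_self (F : Fam m J) (i₁ : Fin m) {a w w' q : ℕ} (h1 : w' ≤ w) (h2 : w ≤ J) (ω : F.Ω) :
    cen F i₁ a w w' q ω i₁ = F.tw w' ω := by
  have hw : (2 : ℝ) ^ w = 2 ^ w' * 2 ^ (w - w') := by
    rw [← pow_add]
    congr 1
    omega
  unfold cen off Fam.tw
  rw [if_pos rfl, if_pos rfl, T1_div F h1 h2, hw]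
  field_simp
  ring

theorem cen_le (F : Fam m J) (i₁ : Fin m) {a w w' q : ℕ} (h1 : w' ≤ w) (h2 : w ≤ J)
    (h3 : a ≤ q + w') (ω : F.Ω) (j : Fin m) : |cen F i₁ a w w' q ω j| ≤ 4 := by
  by_cases hj : j = i₁
  · rw [hj, cen_self F i₁ h1 h2]
    obtain ⟨t0, t1⟩ := tw_mem (h1.trans h2) ω
    rw [abs_of_nonneg t0]
    linarith
  · have h4 := abs_off_le F i₁ h1 h2 h3 ω j
    unfold cen
    rw [if_neg hj, zero_add]
    linarith

theorem eval_cen (F : Fam m J) (i₁ : Fin m) {a w w' q : ℕ} (h1 : w' ≤ w) (h2 : w ≤ J) (ω : F.Ω)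
    (G : MvPolynomial (Fin m) ℝ) : eval (pnt i₁ 0 0 (F.tw w ω)) (plb F i₁ a w q ω G) =
      eval (cen F i₁ a w w' q ω) (plb F i₁ a w' q ω G) := by
  rw [plb_change F i₁ h1 h2, eval_scl, eval_sft]
  congr 1
  congr 1
  funext j
  unfold cen
  by_cases hj : j = i₁
  · subst hj
    simp only [if_true]
    rw [pnt_self]
  · simp only [if_neg hj]
    rw [pnt_ne i₁ _ hj]

/-- The difference of the heights is, up to a bounded error, a function of the conditions. -/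
theorem two_point (m K : ℕ) (C0 : ℝ) : ∃ C : ℝ, 0 ≤ C ∧ ∀ (J : ℕ) (F : Fam m J) (i₁ : Fin m)
    (a v w w' q e X : ℕ) (H : Lb F) (G : F.Ω → MvPolynomial (Fin m) ℝ) (ω ω' : F.Ω),
    v ≤ w' → w' ≤ w → w ≤ J → a ≤ v + q → (∀ s, (H s).totalDegree ≤ K) →
    (G ω).totalDegree ≤ K → (G ω').totalDegree ≤ K →
    NearB F i₁ a w' q K (e + X) (e + X) C0 G (lab F H v w') ω →
    NearB F i₁ a w' q K (e + X) (e + X) C0 G (lab F H v w') ω' →
    unu F i₁ a w q K e (lab F H v w) G X ω = unu F i₁ a w q K e (lab F H v w) G X ω' →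
    cfi F i₁ a w' q K e X (lab F H v w') ω = cfi F i₁ a w' q K e X (lab F H v w') ω' →
    cfi F i₁ a w q K e X (lab F H v w) ω = cfi F i₁ a w q K e X (lab F H v w) ω' →
    F.W ω = F.W ω' →
    |((unu F i₁ a w' q K e (lab F H v w') G X ω -
      unu F i₁ a w' q K e (lab F H v w') G X ω' : ℤ) : ℝ)| ≤ C := by
  obtain ⟨C₁, hC₁, hext⟩ := slice_ext m K
  obtain ⟨C₂, hC₂, hb5⟩ := b5 m K
  refine ⟨4 * (C₁ * |C0|) + 2, by positivity, ?_⟩
  intro J F i₁ a v w w' q e X H G ω ω' hvw hww hwJ haq hH hG hG' hn hn' hu hc' hc hW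
  have hw'J : w' ≤ J := hww.trans hwJ
  have haq' : a ≤ q + w' := by omega
  have hpos : (0 : ℝ) < 2 ^ (e + X) := by positivity
  -- equalities
  have hT : F.T ω = F.T ω' := (Prod.ext_iff.1 hW).1
  have ht : ∀ g, F.tw g ω = F.tw g ω' := fun g => by
    unfold Fam.tw Fam.t Fam.T1
    rw [hT]
  have k' := ctx_ext (Prod.ext_iff.1 hc').1
  have k := ctx_ext (Prod.ext_iff.1 hc).1
  have kf : fsh F i₁ a w' q K (lab F H v w') (e + X) ω =
    fsh F i₁ a w' q K (lab F H v w') (e + X) ω' := (Prod.ext_iff.1 hc').2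
  have hcen : cen F i₁ a w w' q ω = cen F i₁ a w w' q ω' := by
    unfold cen
    rw [k.1, k.2.1, k'.2.1, k.2.2.1, ht w]
  -- the polynomials
  have hd1 : ∀ (P : ℕ) (x : F.Ω), (Rc F i₁ a w' q K P (lab F H v w') x).totalDegree ≤ K :=
    fun P x => totalDegree_rdz K P _
  have hD : ∀ x : F.Ω, (G x).totalDegree ≤ K →
      NearB F i₁ a w' q K (e + X) (e + X) C0 G (lab F H v w') x →
      ∀ b : Fin m → ℝ, (∀ j, |b j| ≤ 4) → b i₁ = F.tw w' x →
        |2 ^ (e + X) * (eval b (plb F i₁ a w' q x (G x)) -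
          eval b (Rc F i₁ a w' q K (e + X) (lab F H v w') x))| ≤ C₁ * |C0| := by
    intro x hGx hnx b hb hbt
    obtain ⟨t0, t1⟩ := tw_mem hw'J x
    have h1 := hext i₁ (plb F i₁ a w' q x (G x) - Rc F i₁ a w' q K (e + X) (lab F H v w') x)
      (F.tw w' x) (C0 / 2 ^ (e + X))
      ((totalDegree_sub _ _).trans (max_le (totalDegree_plb x hGx) (hd1 _ _))) t0 t1.le
      (fun y hy hyt => by
        rw [map_sub]
        exact hnx y hy hyt) b hb hbt
    rw [map_sub] at h1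
    rw [abs_mul, abs_of_pos hpos]
    calc 2 ^ (e + X) * |eval b (plb F i₁ a w' q x (G x)) -
          eval b (Rc F i₁ a w' q K (e + X) (lab F H v w') x)|
        ≤ 2 ^ (e + X) * (C₁ * (C0 / 2 ^ (e + X))) := mul_le_mul_of_nonneg_left h1 hpos.le
      _ = C₁ * C0 := by field_simp
      _ ≤ C₁ * |C0| := mul_le_mul_of_nonneg_left (le_abs_self _) hC₁
  -- the centres
  have hc4 : ∀ x : F.Ω, ∀ j, |pnt i₁ (0 : Fin m → ℝ) 0 (F.tw w' x) j| ≤ 4 := by
    intro x j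
    obtain ⟨t0, t1⟩ := tw_mem hw'J x
    by_cases hj : j = i₁
    · rw [hj, pnt_self, abs_of_nonneg t0]
      linarith
    · rw [pnt_ne i₁ _ hj, abs_zero]
      norm_num
  have a1 := hD ω hG hn (pnt i₁ 0 0 (F.tw w' ω)) (hc4 ω) (pnt_self i₁ _)
  have a2 := hD ω' hG' hn' (pnt i₁ 0 0 (F.tw w' ω')) (hc4 ω') (pnt_self i₁ _)
  have a3 := hD ω hG hn (cen F i₁ a w w' q ω) (cen_le F i₁ hww hwJ haq' ω)
    (cen_self F i₁ hww hwJ ω)
  have a4 := hD ω' hG' hn' (cen F i₁ a w w' q ω') (cen_le F i₁ hww hwJ haq' ω')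
    (cen_self F i₁ hww hwJ ω')
  -- the label
  have a5 := hb5 i₁ (Rc F i₁ a w' q K (e + X) (lab F H v w') ω)
    (Rc F i₁ a w' q K (e + X) (lab F H v w') ω') 0 (hd1 _ _) (hd1 _ _) le_rfl (fun s hs => by
      have h1 : ∀ x : F.Ω, Rc F i₁ a w' q K (e + X) (lab F H v w') x =
        rdp K (e + X) (plb F i₁ a w' q x (lab F H v w' (slam F w' x))) := fun _ => rfl
      rw [h1, h1, coeff_rdp, coeff_rdp]
      by_cases hm : s ∈ mons m K
      · rw [if_pos hm, if_pos hm]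
        have h2 := congrFun kf s
        unfold fsh at h2
        rw [if_pos ⟨hm, hs⟩, if_pos ⟨hm, hs⟩] at h2
        rw [h2, sub_self, abs_zero]
      · rw [if_neg hm, if_neg hm, sub_self, abs_zero])
    (cen F i₁ a w w' q ω) (cen_le F i₁ hww hwJ haq' ω)
  rw [mul_zero, cen_self F i₁ hww hwJ] at a5
  have a6 := abs_nonpos_iff.1 a5
  -- the rows
  have hRc' : Rc F i₁ a w' q K e (lab F H v w') ω = Rc F i₁ a w' q K e (lab F H v w') ω' :=
    k'.2.2.2.2.2.2.1 K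
  have hRc : Rc F i₁ a w q K e (lab F H v w) ω = Rc F i₁ a w q K e (lab F H v w) ω' :=
    k.2.2.2.2.2.2.1 K
  unfold unu at hu ⊢
  have f := (Int.abs_sub_lt_one_of_floor_eq_floor hu).le
  have hnub : ∀ (P : MvPolynomial (Fin m) ℝ) (R : MvPolynomial (Fin m) ℝ) (τ : ℝ),
      (2 : ℝ) ^ X * nub e i₁ P R τ =
        2 ^ (e + X) * eval (pnt i₁ 0 0 τ) P - 2 ^ (e + X) * eval (pnt i₁ 0 0 τ) R := by
    intro P R τ
    unfold nub
    rw [pow_add]
    ring
  rw [hnub, hnub, eval_cen F i₁ hww hwJ, eval_cen F i₁ hww hwJ, ← hRc, ← ht w, ← hcen] at f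
  rw [← hcen] at a4
  rw [← ht w'] at a2
  have g := Pool.OCT.floor_diff (r := (2 : ℝ) ^ X * nub e i₁ (plb F i₁ a w' q ω (G ω))
    (Rc F i₁ a w' q K e (lab F H v w') ω) (F.tw w' ω)) (r' := (2 : ℝ) ^ X *
    nub e i₁ (plb F i₁ a w' q ω' (G ω')) (Rc F i₁ a w' q K e (lab F H v w') ω') (F.tw w' ω'))
    (L := 4 * (C₁ * |C0|) + 1) (by
      rw [hnub, hnub, ← hRc', ← ht w']
      rw [mul_sub] at a1 a2 a3 a4
      have a7 := congrArg (fun z : ℝ => (2 : ℝ) ^ (e + X) * z) a6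
      simp only [mul_sub, mul_zero] at a7
      generalize (2 : ℝ) ^ (e + X) * eval (pnt i₁ 0 0 (F.tw w' ω)) (plb F i₁ a w' q ω (G ω)) =
        x1 at *
      generalize (2 : ℝ) ^ (e + X) * eval (pnt i₁ 0 0 (F.tw w' ω)) (plb F i₁ a w' q ω' (G ω')) =
        x2 at *
      generalize (2 : ℝ) ^ (e + X) * eval (cen F i₁ a w w' q ω) (plb F i₁ a w' q ω (G ω)) =
        x3 at *
      generalize (2 : ℝ) ^ (e + X) * eval (cen F i₁ a w w' q ω) (plb F i₁ a w' q ω' (G ω')) =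
        x4 at *
      rw [abs_le] at a1 a2 a3 a4 f ⊢
      constructor
      · linarith [a1.1, a1.2, a2.1, a2.2, a3.1, a3.2, a4.1, a4.2, f.1, f.2]
      · linarith [a1.1, a1.2, a2.1, a2.2, a3.1, a3.2, a4.1, a4.2, f.1, f.2])
  refine g.trans (le_of_eq ?_)
  ring

/-- **(D4)** from (D3). -/
theorem d4_of_d3 (m K : ℕ) (C0 : ℝ) (h3 : D3 m K) : D4 m K C0 := by
  obtain ⟨C₃, hC₃, h3⟩ := h3
  obtain ⟨C, hC, h⟩ := two_point m K C0
  refine ⟨C₃ + Real.log (2 * C + 1), add_nonneg hC₃ (Real.log_nonneg (by linarith)), ?_⟩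
  intro J F i₁ p a v w w' q e X H G hp hvw hww hwJ haq hH hG hn hn'
  have hnn := hp.nonneg
  have c1 := CH_le_add hnn (unu F i₁ a w' q K e (lab F H v w') G X)
    (cfi F i₁ a w q K e X (lab F H v w))
    (fun ω => (unu F i₁ a w q K e (lab F H v w) G X ω,
      (cfi F i₁ a w' q K e X (lab F H v w') ω, F.W ω)))
  have c2 : CH p (cfi F i₁ a w q K e X (lab F H v w))
      (fun ω => (unu F i₁ a w q K e (lab F H v w) G X ω,
      (cfi F i₁ a w' q K e X (lab F H v w') ω, F.W ω))) ≤ C₃ := by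
    refine le_trans (CH_mono_cond hnn fun ω ω' _ _ he => ?_)
      (h3 J F i₁ p a v w w' q e X H hp hvw hww hwJ haq hH)
    exact (Prod.ext_iff.1 he).2
  have c3 : CH p (unu F i₁ a w' q K e (lab F H v w') G X)
      (fun ω => (cfi F i₁ a w q K e X (lab F H v w) ω,
        (unu F i₁ a w q K e (lab F H v w) G X ω,
          (cfi F i₁ a w' q K e X (lab F H v w') ω, F.W ω)))) ≤ Real.log (2 * C + 1) := by
    refine (CH_le_int hnn hp.sum_one _ _ (fun _ => C) ?_).trans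
      (le_of_eq (Ex_const hp.sum_one _))
    intro ω ω' hω hω' he
    have e1 := (Prod.ext_iff.1 he).1
    have e2 := (Prod.ext_iff.1 (Prod.ext_iff.1 he).2).1
    have e3 := (Prod.ext_iff.1 (Prod.ext_iff.1 (Prod.ext_iff.1 he).2).2).1
    have e4 := (Prod.ext_iff.1 (Prod.ext_iff.1 (Prod.ext_iff.1 he).2).2).2
    exact h J F i₁ a v w w' q e X H G ω ω' hvw hww hwJ haq hH (hG ω hω) (hG ω' hω') (hn' ω hω)
      (hn' ω' hω') e2 e3 e1 e4
  linarith

end Pool.PTH.D4L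

namespace Pool.PTH

/-- **(D4)**. -/
theorem d4_thm (m K : ℕ) (C0 : ℝ) : D4 m K C0 := D4L.d4_of_d3 m K C0 (d3_thm m K)

end Pool.PTH
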